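import Mathlib
import Pool.Agent.Helper998.DualRep

set_option autoImplicit false

/-!
# Cycle ideals of binary matroids generated in degree at most five: a counterexample (MP_1f7bca_co)

Let `N` be the binary matroid of rank four whose elements are the ten vectors of `GF(2)^4` with the
binary codes `1, 2, 3, 4, 5, 7, 8, 9, 10, 12` (the complement in `PG(3,2)` of a line and two further
points), and let `M` be its dual.  `M` is a connected binary matroid with ten elements, it is simple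
and cosimple, and it is not isomorphic to `M(K_5)^*` (the matroid `N` has only nine triangles while
`M(K_5)` has ten), so that it has no minor isomorphic to `M(K_5)^*` at all, let alone an
`M(K_5)^*`-restricted minor.  The cycles of `M` are the sixteen sets `D_c`, `c` in `GF(2)^4`, of the
vectors with nonzero scalar product with `c`.  The monomials
`x_0^2 x_7 x_9 x_10 x_12` and `x_1 x_2 x_4 x_8^2 x_15` have the same image, they are the only
monomials with this image, and they have no common variable.  So their difference is an element of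
degree six of every set of homogeneous generators (up to a scalar) of the cycle ideal of `M`.
-/

namespace Pool.Agent.Results.MP_1f7bca_co.TenElements

open MvPolynomial Matroid

/-- `M` is a binary matroid: it is represented by vectors over `GF(2)`. -/
def IsBinary {α : Type*} (M : Matroid α) : Prop :=
  ∃ (n : ℕ) (v : α → (Fin n → ZMod 2)), ∀ I ⊆ M.E, (M.Indep I ↔ LinearIndepOn (ZMod 2) v I)

/-- `M` is connected: any two elements are in a common circuit. -/
def IsConnected {α : Type*} (M : Matroid α) : Prop :=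
  ∀ e ∈ M.E, ∀ f ∈ M.E, e ≠ f → ∃ C, M.IsCircuit C ∧ e ∈ C ∧ f ∈ C

/-- `M` is simple: all circuits have at least three elements. -/
def IsSimple {α : Type*} (M : Matroid α) : Prop :=
  ∀ C, M.IsCircuit C → 3 ≤ C.encard

/-- `N` is isomorphic to `M(K_5)^*`: a bijection between the edges of `K_5` and the elements of `N`
maps the acyclic sets of edges to the independent sets of the dual of `N`. -/
def IsDualOfCycleMatroidK5 {α : Type*} (N : Matroid α) : Prop :=
  ∃ f : (⊤ : SimpleGraph (Fin 5)).edgeSet ≃ N.E, ∀ F : Set (⊤ : SimpleGraph (Fin 5)).edgeSet,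
    N✶.Indep (Subtype.val '' (f '' F)) ↔ (SimpleGraph.fromEdgeSet (Subtype.val '' F)).IsAcyclic

/-- `N` is obtained from `M` by a deletion, a series contraction (the contraction of an element `e`
of a cocircuit `{e, f}`) or a coloop contraction. -/
inductive RestrictedStep {α : Type*} (M : Matroid α) : Matroid α → Prop
  | delete (e : α) (he : e ∈ M.E) : RestrictedStep M (M ＼ {e})
  | seriesContract (e f : α) (hef : e ≠ f) (h : M.IsCocircuit {e, f}) : RestrictedStep M (M ／ {e})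
  | coloopContract (e : α) (h : M.IsColoop e) : RestrictedStep M (M ／ {e})

/-- `M` has an `M(K_5)^*`-restricted minor. -/
def HasRestrictedMinor {α : Type*} (M : Matroid α) : Prop :=
  ∃ N : Matroid α, Relation.ReflTransGen RestrictedStep M N ∧ IsDualOfCycleMatroidK5 N

/-- `D` is a cycle of `M`: a (possibly empty) disjoint union of circuits of `M`. -/
def IsCycle {α : Type*} (M : Matroid α) (D : Set α) : Prop :=
  ∃ P : Set (Set α), (∀ C ∈ P, M.IsCircuit C) ∧ P.PairwiseDisjoint id ∧ ⋃₀ P = D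

open Classical in
/-- The homomorphism `K[x_D : D a cycle of M] → K[t_e (e ∈ E), s]`, `x_D ↦ s ∏_{e ∈ D} t_e`.  Here
`t_e` is the variable `X (some e)` and `s` is the variable `X none`. -/
noncomputable def cycleHom (K : Type*) [Field K] {α : Type*} [Fintype α] (M : Matroid α) :
    MvPolynomial {D : Set α // IsCycle M D} K →ₐ[K] MvPolynomial (Option α) K :=
  aeval fun D => X none * ∏ e ∈ Finset.univ.filter (fun e => e ∈ D.1), X (some e)

/-- The cycle ideal of `M` over the field `K`. -/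
noncomputable def cycleIdeal (K : Type*) [Field K] {α : Type*} [Fintype α] (M : Matroid α) :
    Ideal (MvPolynomial {D : Set α // IsCycle M D} K) :=
  RingHom.ker (cycleHom K M)

/-- The ideal `I` has a set of homogeneous generators all of which have degree at most `d`. -/
def GeneratedInDegree {σ K : Type*} [Field K] (I : Ideal (MvPolynomial σ K)) (d : ℕ) : Prop :=
  ∃ G : Set (MvPolynomial σ K), (∀ g ∈ G, ∃ n ≤ d, g.IsHomogeneous n) ∧ Ideal.span G = I

section toric
variable {σ τ K : Type*} [Field K]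

/-- the exponent of the image of a monomial -/
noncomputable def expo (A : σ → τ →₀ ℕ) (m : σ →₀ ℕ) : τ →₀ ℕ := m.sum fun i k => k • A i

theorem expo_add (A : σ → τ →₀ ℕ) (m n : σ →₀ ℕ) : expo A (m + n) = expo A m + expo A n := by
  unfold expo
  rw [Finsupp.sum_add_index']
  · simp
  · intro i a b; rw [add_smul]

theorem map_monomial (A : σ → τ →₀ ℕ) (φ : MvPolynomial σ K →ₐ[K] MvPolynomial τ K)
    (hφ : ∀ i, φ (X i) = monomial (A i) 1) (m : σ →₀ ℕ) (a : K) :
    φ (monomial m a) = monomial (expo A m) a := by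
  rw [MvPolynomial.monomial_eq, map_mul]
  have h1 : φ (C a) = C a := by
    exact φ.commutes a
  rw [h1, Finsupp.prod, map_prod]
  have h2 : ∏ x ∈ m.support, φ (X x ^ m x) = monomial (expo A m) 1 := by
    have : ∀ x ∈ m.support, φ (X x ^ m x) = monomial (m x • A x) (1 : K) := by
      intro x _
      rw [map_pow, hφ, MvPolynomial.monomial_pow, one_pow]
    rw [Finset.prod_congr rfl this, expo, Finsupp.sum]
    rw [MvPolynomial.monomial_sum_one]
  rw [h2, MvPolynomial.C_mul_monomial, mul_one]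

theorem coeff_map (A : σ → τ →₀ ℕ) (φ : MvPolynomial σ K →ₐ[K] MvPolynomial τ K)
    (hφ : ∀ i, φ (X i) = monomial (A i) 1) (g : MvPolynomial σ K) (n : σ →₀ ℕ)
    (hn : ∀ m, expo A m = expo A n → m = n) : coeff (expo A n) (φ g) = coeff n g := by
  classical
  conv_lhs => rw [g.as_sum]
  rw [map_sum, MvPolynomial.coeff_sum]
  simp_rw [map_monomial A φ hφ, MvPolynomial.coeff_monomial]
  by_cases h : n ∈ g.support
  · rw [Finset.sum_eq_single n]
    · simp
    · intro m _ hm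
      rw [if_neg]
      intro h'; exact hm (hn m h')
    · intro h'; exact absurd h h'
  · rw [Finset.sum_eq_zero]
    · rw [MvPolynomial.notMem_support_iff] at h
      exact h.symm
    · intro m hm
      rw [if_neg]
      intro h'
      exact h (hn m h' ▸ hm)

theorem toric_not_generated (A : σ → τ →₀ ℕ) (φ : MvPolynomial σ K →ₐ[K] MvPolynomial τ K)
    (hφ : ∀ i, φ (X i) = monomial (A i) 1) (m1 m2 : σ →₀ ℕ) (d : ℕ)
    (hdeg : d < m1.degree) (h12 : expo A m1 = expo A m2)
    (hfib : ∀ m, expo A m = expo A m1 → m = m1 ∨ m = m2) (hne : m1 ≠ m2)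
    (hdisj : ∀ i, m1 i = 0 ∨ m2 i = 0) :
    ¬ GeneratedInDegree (RingHom.ker φ) d := by
  classical
  rintro ⟨G, hG, hspan⟩
  -- the ideal of the polynomials without monomials dividing `m1`
  let L : Ideal (MvPolynomial σ K) :=
    { carrier := {f | ∀ n, n ≤ m1 → coeff n f = 0}
      add_mem' := by
        intro f g hf hg n hn
        rw [MvPolynomial.coeff_add, hf n hn, hg n hn, add_zero]
      zero_mem' := by intro n _; simp
      smul_mem' := by
        intro c f hf n hn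
        rw [smul_eq_mul, MvPolynomial.coeff_mul]
        apply Finset.sum_eq_zero
        intro p hp
        rw [Finset.HasAntidiagonal.mem_antidiagonal] at hp
        rw [hf p.2 ?_, mul_zero]
        exact le_trans (hp ▸ le_add_self) hn }
  have hGL : G ⊆ (L : Set (MvPolynomial σ K)) := by
    intro g hg n hn
    by_contra hc
    obtain ⟨k, hk, hhom⟩ := hG g hg
    have hdn : n.degree = k := by
      by_contra h
      exact hc (hhom.coeff_eq_zero h)
    have hnm : n ≠ m1 := by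
      rintro rfl; omega
    have hgk : φ g = 0 := by
      have : g ∈ RingHom.ker φ := hspan ▸ Ideal.subset_span hg
      simpa [RingHom.mem_ker] using this
    obtain ⟨u, hu⟩ : ∃ u, m1 = n + u := ⟨m1 - n, (add_tsub_cancel_of_le hn).symm⟩
    have hu0 : u ≠ 0 := by
      rintro rfl; exact hnm (by simpa using hu.symm)
    have huniq : ∀ m, expo A m = expo A n → m = n := by
      intro m hm
      rcases hfib (m + u) (by rw [expo_add, hm, ← expo_add, ← hu]) with h | h
      · rw [hu] at h; exact add_right_cancel h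
      · exfalso
        obtain ⟨i, hi⟩ := Finsupp.ne_iff.1 hu0
        rcases hdisj i with h' | h'
        · rw [hu, Finsupp.add_apply] at h'
          simp at hi; omega
        · rw [← h, Finsupp.add_apply] at h'
          simp at hi; omega
    apply hc
    rw [← coeff_map A φ hφ g n huniq, hgk, coeff_zero]
  have hLe : Ideal.span G ≤ L := Ideal.span_le.2 hGL
  have hbin : (monomial m1 1 - monomial m2 1 : MvPolynomial σ K) ∈ RingHom.ker φ := by
    rw [RingHom.mem_ker]
    have := map_monomial (K := K) A φ hφ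
    rw [map_sub]
    erw [this m1 1, this m2 1]
    rw [h12, sub_self]
  rw [← hspan] at hbin
  have := hLe hbin m1 le_rfl
  rw [coeff_sub, coeff_monomial, coeff_monomial, if_pos rfl, if_neg hne.symm] at this
  simp at this

end toric

theorem fiber_core (m0 m1 m2 m3 m4 m5 m6 m7 m8 m9 m10 m11 m12 m13 m14 m15 y6 y11 y13 y14 y15 : ℕ)
  (e0 : 8 * m0 + y6 + y11 + y13 + y14 + y15 = 22)
  (e1 : 8 * m1 + y6 + y14 = y11 + y13 + y15 + 0)
  (e2 : 8 * m2 + y13 + 4 = y6 + y11 + y14 + y15)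
  (e3 : 8 * m3 + y11 + y15 + 2 = y6 + y13 + y14)
  (e4 : 8 * m4 + y11 + 4 = y6 + y13 + y14 + y15)
  (e5 : 8 * m5 + y13 + y15 + 2 = y6 + y11 + y14)
  (e6 : 8 * m6 + y6 + y14 + y15 = y11 + y13 + 2)
  (e7 : 8 * m7 + y6 + y11 + y13 + y14 = y15 + 12)
  (e8 : 8 * m8 + y6 + 2 = y11 + y13 + y14 + y15)
  (e9 : 8 * m9 + y6 + y11 + y13 + y15 = y14 + 12)
  (e10 : 8 * m10 + y11 + y14 + y15 = y6 + y13 + 8)
  (e11 : 8 * m11 + y13 + y14 + 2 = y6 + y11 + y15)
  (e12 : 8 * m12 + y13 + y14 + y15 = y6 + y11 + 8)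
  (e13 : 8 * m13 + y11 + y14 + 2 = y6 + y13 + y15)
  (e14 : 8 * m14 + y6 + y11 + y13 = y14 + y15 + 2)
  (e15 : 8 * m15 + y6 + y15 = y11 + y13 + y14 + 0)
  (h6 : y6 = 2 ∨ y6 = 4)
  (h11 : y11 = 1 ∨ y11 = 3 ∨ y11 = 5)
  (h13 : y13 = 1 ∨ y13 = 3 ∨ y13 = 5)
  (h14 : y14 = 1 ∨ y14 = 3 ∨ y14 = 5)
  (h15 : y15 = 1 ∨ y15 = 3 ∨ y15 = 5)
  : (m0 = 2 ∧ m1 = 0 ∧ m2 = 0 ∧ m3 = 0 ∧ m4 = 0 ∧ m5 = 0 ∧ m6 = 0 ∧ m7 = 1 ∧ m8 = 0 ∧ m9 = 1 ∧ m10 = 1 ∧ m11 = 0 ∧ m12 = 1 ∧ m13 = 0 ∧ m14 = 0 ∧ m15 = 0) ∨ (m0 = 0 ∧ m1 = 1 ∧ m2 = 1 ∧ m3 = 0 ∧ m4 = 1 ∧ m5 = 0 ∧ m6 = 0 ∧ m7 = 0 ∧ m8 = 2 ∧ m9 = 0 ∧ m10 = 0 ∧ m11 = 0 ∧ m12 = 0 ∧ m13 = 0 ∧ m14 = 0 ∧ m15 = 1) := by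
  rcases h6 with rfl | rfl <;> rcases h11 with rfl | rfl | rfl <;> rcases h13 with rfl | rfl | rfl <;> rcases h14 with rfl | rfl | rfl <;> rcases h15 with rfl | rfl | rfl <;> omega

theorem fiber (m0 m1 m2 m3 m4 m5 m6 m7 m8 m9 m10 m11 m12 m13 m14 m15 : ℕ)
  (h : m0 + m1 + m2 + m3 + m4 + m5 + m6 + m7 + m8 + m9 + m10 + m11 + m12 + m13 + m14 + m15 = 6)
  (h1 : m1 + m3 + m5 + m7 + m9 + m11 + m13 + m15 = 2)
  (h2 : m2 + m3 + m6 + m7 + m10 + m11 + m14 + m15 = 2)
  (h3 : m1 + m2 + m5 + m6 + m9 + m10 + m13 + m14 = 2)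
  (h4 : m4 + m5 + m6 + m7 + m12 + m13 + m14 + m15 = 2)
  (h5 : m1 + m3 + m4 + m6 + m9 + m11 + m12 + m14 = 2)
  (h7 : m1 + m2 + m4 + m7 + m9 + m10 + m12 + m15 = 4)
  (h8 : m8 + m9 + m10 + m11 + m12 + m13 + m14 + m15 = 3)
  (h9 : m1 + m3 + m5 + m7 + m8 + m10 + m12 + m14 = 3)
  (h10 : m2 + m3 + m6 + m7 + m8 + m9 + m12 + m13 = 3)
  (h12 : m4 + m5 + m6 + m7 + m8 + m9 + m10 + m11 = 3)
  : (m0 = 2 ∧ m1 = 0 ∧ m2 = 0 ∧ m3 = 0 ∧ m4 = 0 ∧ m5 = 0 ∧ m6 = 0 ∧ m7 = 1 ∧ m8 = 0 ∧ m9 = 1 ∧ m10 = 1 ∧ m11 = 0 ∧ m12 = 1 ∧ m13 = 0 ∧ m14 = 0 ∧ m15 = 0) ∨ (m0 = 0 ∧ m1 = 1 ∧ m2 = 1 ∧ m3 = 0 ∧ m4 = 1 ∧ m5 = 0 ∧ m6 = 0 ∧ m7 = 0 ∧ m8 = 2 ∧ m9 = 0 ∧ m10 = 0 ∧ m11 = 0 ∧ m12 = 0 ∧ m13 = 0 ∧ m14 = 0 ∧ m15 = 1) := by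
  obtain ⟨y6, hy6⟩ : ∃ y, m2 + m3 + m4 + m5 + m10 + m11 + m12 + m13 = y := ⟨_, rfl⟩
  obtain ⟨y11, hy11⟩ : ∃ y, m1 + m2 + m5 + m6 + m8 + m11 + m12 + m15 = y := ⟨_, rfl⟩
  obtain ⟨y13, hy13⟩ : ∃ y, m1 + m3 + m4 + m6 + m8 + m10 + m13 + m15 = y := ⟨_, rfl⟩
  obtain ⟨y14, hy14⟩ : ∃ y, m2 + m3 + m4 + m5 + m8 + m9 + m14 + m15 = y := ⟨_, rfl⟩
  obtain ⟨y15, hy15⟩ : ∃ y, m1 + m2 + m4 + m7 + m8 + m11 + m13 + m14 = y := ⟨_, rfl⟩
  have e0 : 8 * m0 + y6 + y11 + y13 + y14 + y15 = 22 := by omega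
  have e1 : 8 * m1 + y6 + y14 = y11 + y13 + y15 + 0 := by omega
  have e2 : 8 * m2 + y13 + 4 = y6 + y11 + y14 + y15 := by omega
  have e3 : 8 * m3 + y11 + y15 + 2 = y6 + y13 + y14 := by omega
  have e4 : 8 * m4 + y11 + 4 = y6 + y13 + y14 + y15 := by omega
  have e5 : 8 * m5 + y13 + y15 + 2 = y6 + y11 + y14 := by omega
  have e6 : 8 * m6 + y6 + y14 + y15 = y11 + y13 + 2 := by omega
  have e7 : 8 * m7 + y6 + y11 + y13 + y14 = y15 + 12 := by omega
  have e8 : 8 * m8 + y6 + 2 = y11 + y13 + y14 + y15 := by omega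
  have e9 : 8 * m9 + y6 + y11 + y13 + y15 = y14 + 12 := by omega
  have e10 : 8 * m10 + y11 + y14 + y15 = y6 + y13 + 8 := by omega
  have e11 : 8 * m11 + y13 + y14 + 2 = y6 + y11 + y15 := by omega
  have e12 : 8 * m12 + y13 + y14 + y15 = y6 + y11 + 8 := by omega
  have e13 : 8 * m13 + y11 + y14 + 2 = y6 + y13 + y15 := by omega
  have e14 : 8 * m14 + y6 + y11 + y13 = y14 + y15 + 2 := by omega
  have e15 : 8 * m15 + y6 + y15 = y11 + y13 + y14 + 0 := by omega
  have k6a : y6 + 2 * (m6 + m7 + m14 + m15) = 4 := by omega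
  have k6b : y6 = 2 + 2 * (m3 + m5 + m11 + m13) := by omega
  have k6 : y6 = 2 ∨ y6 = 4 := by clear * - k6a k6b; omega
  have k11a : y11 + 2 * (m3 + m7 + m9 + m13) = 5 := by omega
  have k11 : y11 = 1 ∨ y11 = 3 ∨ y11 = 5 := by clear * - k11a; omega
  have k13a : y13 + 2 * (m5 + m7 + m9 + m11) = 5 := by omega
  have k13 : y13 = 1 ∨ y13 = 3 ∨ y13 = 5 := by clear * - k13a; omega
  have k14a : y14 + 2 * (m6 + m7 + m10 + m11) = 5 := by omega
  have k14 : y14 = 1 ∨ y14 = 3 ∨ y14 = 5 := by clear * - k14a; omega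
  have k15a : y15 + 2 * (m5 + m6 + m9 + m10) = 5 := by omega
  have k15 : y15 = 1 ∨ y15 = 3 ∨ y15 = 5 := by clear * - k15a; omega
  exact fiber_core _ _ _ _ _ _ _ _ _ _ _ _ _ _ _ _ _ _ _ _ _ e0 e1 e2 e3 e4 e5 e6 e7 e8 e9 e10 e11 e12 e13 e14 e15 k6 k11 k13 k14 k15

section matroid

open Pool.Agent.Helper998.VecMatroid Pool.Agent.Helper998.DualRep

/-- The codes of the ten vectors. -/
def code : Fin 10 → ℕ := ![1, 2, 3, 4, 5, 7, 8, 9, 10, 12]

/-- The ten vectors. -/
def vec (i : Fin 10) (j : Fin 4) : ZMod 2 := if (code i).testBit j then 1 else 0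

/-- The scalar product with the vector with the code `c`. -/
def tab (c : Fin 16) (i : Fin 10) : Bool :=
  let a := c.1 &&& code i
  (a.testBit 0 ^^ a.testBit 1) ^^ (a.testBit 2 ^^ a.testBit 3)

/-- The cycles. -/
def cyc (c : Fin 16) : Set (Fin 10) := {i | tab c i = true}

theorem tab_fun : ∀ a : Fin 4 → ZMod 2, ∃ c : Fin 16, ∀ i, (∑ j, a j * vec i j ≠ 0 ↔ tab c i = true) := by
  decide

theorem tab_fun' : ∀ c : Fin 16, ∃ a : Fin 4 → ZMod 2, ∀ i, (∑ j, a j * vec i j ≠ 0 ↔ tab c i = true) := by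
  decide

theorem tab_inj : ∀ c c' : Fin 16, (∀ i, tab c i = tab c' i) → c = c' := by
  decide

theorem tab_clutter : ∀ c c' : Fin 16, c ≠ 0 → c' ≠ 0 → (∀ i, tab c' i = true → tab c i = true) →
    c = c' := by
  decide

theorem tab_ne : ∀ c : Fin 16, c ≠ 0 → ∃ i, tab c i = true := by
  decide

theorem tab_pair : ∀ e f : Fin 10, ∃ c : Fin 16, c ≠ 0 ∧ tab c e = true ∧ tab c f = true := by
  decide

theorem tab_three : ∀ c : Fin 16, c ≠ 0 → 3 ≤ (Finset.univ.filter (fun i => tab c i = true)).card := by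
  decide

/-- The matroid `N`. -/
def N0 : Matroid (Fin 10) := vecMatroid (ZMod 2) vec

/-- The matroid `M`. -/
def M0 : Matroid (Fin 10) := N0✶

theorem dual_apply (f : Module.Dual (ZMod 2) (Fin 4 → ZMod 2)) (i : Fin 10) :
    f (vec i) = ∑ j, f (Pi.single j 1) * vec i j := by
  have h : vec i = ∑ j, vec i j • (Pi.single j 1 : Fin 4 → ZMod 2) := by
    ext k
    simp [Finset.sum_apply, Pi.single_apply]
  conv_lhs => rw [h, map_sum]
  apply Finset.sum_congr rfl
  intro j _
  rw [map_smul, smul_eq_mul, mul_comm]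

theorem exists_code (f : Module.Dual (ZMod 2) (Fin 4 → ZMod 2)) :
    ∃ c : Fin 16, {i | f (vec i) ≠ 0} = cyc c := by
  obtain ⟨c, hc⟩ := tab_fun (fun j => f (Pi.single j 1))
  refine ⟨c, ?_⟩
  ext i
  simp only [cyc, Set.mem_ofPred_eq]
  rw [dual_apply]
  exact hc i

theorem exists_dual (c : Fin 16) :
    ∃ f : Module.Dual (ZMod 2) (Fin 4 → ZMod 2), {i | f (vec i) ≠ 0} = cyc c := by
  obtain ⟨a, ha⟩ := tab_fun' c
  refine ⟨∑ j, a j • LinearMap.proj j, ?_⟩
  ext i
  simp only [cyc, Set.mem_ofPred_eq]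
  rw [← ha i]
  simp [LinearMap.sum_apply]

theorem cyc_injective : Function.Injective cyc := by
  intro c c' h
  apply tab_inj
  intro i
  have : i ∈ cyc c ↔ i ∈ cyc c' := by rw [h]
  simp only [cyc, Set.mem_ofPred_eq] at this
  exact Bool.eq_iff_iff.2 this

theorem cyc_zero : cyc 0 = ∅ := by
  ext i
  simp only [cyc, Set.mem_ofPred_eq, Set.mem_empty_iff_false, iff_false]
  revert i
  decide

/-- The circuits of `M`. -/
theorem isCircuit_iff (C : Set (Fin 10)) : M0.IsCircuit C ↔ ∃ c : Fin 16, c ≠ 0 ∧ C = cyc c := by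
  constructor
  · intro h
    obtain ⟨f, hf, hC⟩ := exists_of_isCocircuit (F := ZMod 2) vec (K := C) h
    obtain ⟨c, hc⟩ := exists_code f
    refine ⟨c, ?_, by rw [← hC, hc]⟩
    rintro rfl
    rw [cyc_zero] at hc
    obtain ⟨i, hi⟩ := hf
    have : i ∈ ({i | f (vec i) ≠ 0} : Set (Fin 10)) := hi
    rw [hc] at this
    exact this
  · rintro ⟨c, hc, rfl⟩
    obtain ⟨f, hf⟩ := exists_dual c
    rw [← hf]
    apply isCocircuit_of_minimal
    · obtain ⟨i, hi⟩ := tab_ne c hc
      refine ⟨i, ?_⟩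
      have : i ∈ cyc c := hi
      rw [← hf] at this
      exact this
    · intro g hg hgf
      obtain ⟨c', hc'⟩ := exists_code g
      have h0 : c' ≠ 0 := by
        rintro rfl
        rw [cyc_zero] at hc'
        obtain ⟨i, hi⟩ := hg
        have : i ∈ ({i | g (vec i) ≠ 0} : Set (Fin 10)) := hi
        rw [hc'] at this
        exact this
      have hsub : ∀ i, tab c' i = true → tab c i = true := by
        intro i hi
        have h1 : i ∈ cyc c' := hi
        rw [← hc'] at h1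
        have h2 : i ∈ ({i | f (vec i) ≠ 0} : Set (Fin 10)) := hgf i h1
        rw [hf] at h2
        exact h2
      have heq := tab_clutter c c' hc h0 hsub
      subst heq
      intro i hi
      have h1 : i ∈ ({i | f (vec i) ≠ 0} : Set (Fin 10)) := hi
      rw [hf, ← hc'] at h1
      exact h1

/-- The cycles of `M`. -/
theorem isCycle_iff (D : Set (Fin 10)) : IsCycle M0 D ↔ ∃ c : Fin 16, cyc c = D := by
  constructor
  · rintro ⟨P, hP, hdis, rfl⟩
    suffices h : ∃ f : Module.Dual (ZMod 2) (Fin 4 → ZMod 2), {i | f (vec i) ≠ 0} = ⋃₀ P by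
      obtain ⟨f, hf⟩ := h
      obtain ⟨c, hc⟩ := exists_code f
      exact ⟨c, by rw [← hf, hc]⟩
    have hfin : P.Finite := Set.toFinite P
    induction P, hfin using Set.Finite.induction_on with
    | empty => exact ⟨0, by simp⟩
    | @insert C Q hCQ _ ih =>
      obtain ⟨g, hg⟩ := ih (fun C' h' => hP C' (Set.mem_insert_of_mem _ h'))
        (hdis.subset (Set.subset_insert _ _))
      obtain ⟨c, -, hc⟩ := (isCircuit_iff C).1 (hP C (Set.mem_insert _ _))
      obtain ⟨f, hf⟩ := exists_dual c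
      rw [← hc] at hf
      refine ⟨f + g, ?_⟩
      rw [Set.sUnion_insert]
      have hd : Disjoint C (⋃₀ Q) := by
        rw [Set.disjoint_sUnion_right]
        intro C' hC'
        exact hdis (Set.mem_insert _ _) (Set.mem_insert_of_mem _ hC')
          (fun h => hCQ (h ▸ hC'))
      ext i
      have h2 : ∀ a b : ZMod 2, a ≠ 0 → b ≠ 0 → a + b = 0 := by decide
      have hi1 : f (vec i) ≠ 0 ↔ i ∈ C := by rw [← hf]; rfl
      have hi2 : g (vec i) ≠ 0 ↔ i ∈ ⋃₀ Q := by rw [← hg]; rfl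
      simp only [Set.mem_ofPred_eq, LinearMap.add_apply, Set.mem_union]
      rw [← hi1, ← hi2]
      have hnot : ¬ (f (vec i) ≠ 0 ∧ g (vec i) ≠ 0) := by
        rintro ⟨h3, h4⟩
        exact Set.disjoint_left.1 hd (hi1.1 h3) (hi2.1 h4)
      by_cases h3 : f (vec i) = 0
      · by_cases h4 : g (vec i) = 0
        · simp [h3, h4]
        · simp [h3, h4]
      · by_cases h4 : g (vec i) = 0
        · simp [h3, h4]
        · exact absurd ⟨h3, h4⟩ hnot
  · rintro ⟨c, rfl⟩
    by_cases hc : c = 0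
    · subst hc
      exact ⟨∅, by simp, by simp, by simp [cyc_zero]⟩
    · refine ⟨{cyc c}, ?_, by simp, by simp⟩
      rintro C rfl
      exact (isCircuit_iff _).2 ⟨c, hc, rfl⟩

/-- The bijection between the sixteen codes and the cycles. -/
noncomputable def cycEquiv : Fin 16 ≃ {D : Set (Fin 10) // IsCycle M0 D} :=
  Equiv.ofBijective (fun c => ⟨cyc c, (isCycle_iff _).2 ⟨c, rfl⟩⟩) (by
    constructor
    · intro c c' h
      exact cyc_injective (Subtype.ext_iff.1 h)
    · rintro ⟨D, hD⟩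
      obtain ⟨c, hc⟩ := (isCycle_iff D).1 hD
      exact ⟨c, Subtype.ext hc⟩)

theorem cycEquiv_val (c : Fin 16) : (cycEquiv c).1 = cyc c := rfl

theorem M0_E : M0.E = Set.univ := rfl

theorem binary : IsBinary M0 := by
  obtain ⟨n, φ, h⟩ := dual_rep (F := ZMod 2) vec
  exact ⟨n, φ, fun I _ => h I⟩

theorem connected : IsConnected M0 := by
  intro e _ f _ _
  obtain ⟨c, hc, h1, h2⟩ := tab_pair e f
  exact ⟨cyc c, (isCircuit_iff _).2 ⟨c, hc, rfl⟩, h1, h2⟩

theorem simple : IsSimple M0 := by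
  intro C hC
  obtain ⟨c, hc, rfl⟩ := (isCircuit_iff C).1 hC
  have h := tab_three c hc
  have h2 : cyc c = ((Finset.univ.filter (fun i => tab c i = true) : Finset (Fin 10)) : Set (Fin 10)) := by
    ext i; simp [cyc]
  rw [h2, Set.encard_coe_eq_coe_finsetCard]
  exact_mod_cast h

theorem vec_ne : ∀ i : Fin 10, vec i ≠ 0 := by decide

theorem vec_add_ne : ∀ i j : Fin 10, i ≠ j → vec i + vec j ≠ 0 := by decide

theorem dep_sum {A : Set (Fin 10)} (h : ¬ N0.Indep A) :
    ∃ B : Finset (Fin 10), B.Nonempty ∧ (B : Set (Fin 10)) ⊆ A ∧ ∑ i ∈ B, vec i = 0 := by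
  have hd : N0.Dep A := ⟨h, Set.subset_univ _⟩
  obtain ⟨c, hc, hrel, hs⟩ := (dep_iff (F := ZMod 2) vec).1 hd
  refine ⟨Finset.univ.filter (fun i => c i ≠ 0), ?_, ?_, ?_⟩
  · obtain ⟨i, hi⟩ := Function.ne_iff.1 hc
    exact ⟨i, by simpa using hi⟩
  · intro i hi
    apply hs
    simpa using hi
  · have h1 : ∀ a : ZMod 2, a ≠ 0 → a = 1 := by decide
    rw [IsRel] at hrel
    have h2 : ∑ i, (if c i ≠ 0 then vec i else 0) = ∑ i, c i • vec i := by
      apply Finset.sum_congr rfl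
      intro i _
      by_cases h0 : c i = 0
      · simp [h0]
      · rw [if_pos h0, h1 _ h0, one_smul]
    rw [Finset.sum_filter, h2, hrel]

theorem cosimple : IsSimple M0✶ := by
  intro C hC
  have hM : M0✶ = N0 := Matroid.dual_dual N0
  rw [hM] at hC
  obtain ⟨B, hB, hBC, hsum⟩ := dep_sum hC.dep.not_indep
  have h3 : 3 ≤ B.card := by
    by_contra hlt
    have : B.card = 1 ∨ B.card = 2 := by
      have := Finset.card_pos.2 hB
      omega
    rcases this with h | h
    · obtain ⟨i, rfl⟩ := Finset.card_eq_one.1 h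
      rw [Finset.sum_singleton] at hsum
      exact vec_ne i hsum
    · obtain ⟨i, j, hij, rfl⟩ := Finset.card_eq_two.1 h
      rw [Finset.sum_pair hij] at hsum
      exact vec_add_ne i j hij hsum
  calc (3 : ℕ∞) ≤ (B.card : ℕ∞) := by exact_mod_cast h3
    _ = (B : Set (Fin 10)).encard := (Set.encard_coe_eq_coe_finsetCard B).symm
    _ ≤ C.encard := Set.encard_le_encard hBC

/-- The triangles of `N`. -/
def lines : Finset (Finset (Fin 10)) :=
  (Finset.powersetCard 3 Finset.univ).filter (fun A => ∑ i ∈ A, vec i = 0)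

theorem card_lines : lines.card = 9 := by decide

theorem triangle_not_acyclic (a b c : Fin 5) (hab : a ≠ b) (hbc : b ≠ c) (hac : a ≠ c)
    (G : SimpleGraph (Fin 5)) (h1 : G.Adj a b) (h2 : G.Adj b c) (h3 : G.Adj c a) :
    ¬ G.IsAcyclic := by
  intro h
  have hcyc : (SimpleGraph.Walk.cons h1 (SimpleGraph.Walk.cons h2
      (SimpleGraph.Walk.cons h3 SimpleGraph.Walk.nil))).IsCycle := by
    rw [SimpleGraph.Walk.isCycle_def]
    refine ⟨?_, by simp, ?_⟩
    · rw [SimpleGraph.Walk.isTrail_def]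
      simp [SimpleGraph.Walk.edges_cons, hab, hbc, hac, hab.symm, hac.symm]
    · simp [SimpleGraph.Walk.support_cons, hbc, hab.symm, hac.symm]
  exact h _ hcyc

abbrev KE := (⊤ : SimpleGraph (Fin 5)).edgeSet

/-- The edges of a triangle. -/
def triEdges (t : Finset (Fin 5)) : Finset KE := Finset.univ.filter (fun e => ∀ y, y ∈ e.1 → y ∈ t)

theorem triEdges_card : ∀ t ∈ Finset.powersetCard 3 (Finset.univ : Finset (Fin 5)),
    (triEdges t).card = 3 := by
  decide

theorem triEdges_inj : ∀ t ∈ Finset.powersetCard 3 (Finset.univ : Finset (Fin 5)),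
    ∀ t' ∈ Finset.powersetCard 3 (Finset.univ : Finset (Fin 5)), triEdges t = triEdges t' → t = t' := by
  decide

theorem sum_three (A B : Finset (Fin 10)) (hA : A.card = 3) (hBA : B ⊆ A) (hB : B.Nonempty)
    (hsum : ∑ i ∈ B, vec i = 0) : ∑ i ∈ A, vec i = 0 := by
  have h1 := Finset.card_le_card hBA
  have h2 := Finset.card_pos.2 hB
  have h3 : B.card ≠ 1 := by
    intro h
    obtain ⟨i, rfl⟩ := Finset.card_eq_one.1 h
    rw [Finset.sum_singleton] at hsum
    exact vec_ne i hsum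
  have h4 : B.card ≠ 2 := by
    intro h
    obtain ⟨i, j, hij, rfl⟩ := Finset.card_eq_two.1 h
    rw [Finset.sum_pair hij] at hsum
    exact vec_add_ne i j hij hsum
  rw [← Finset.eq_of_subset_of_card_le hBA (by omega)]
  exact hsum

theorem tri_not_acyclic (t : Finset (Fin 5)) (ht : t.card = 3) :
    ¬ (SimpleGraph.fromEdgeSet (Subtype.val '' (triEdges t : Set KE))).IsAcyclic := by
  obtain ⟨a, b, c, hab, hac, hbc, rfl⟩ := Finset.card_eq_three.1 ht
  have key : ∀ x y, x ∈ ({a, b, c} : Finset (Fin 5)) → y ∈ ({a, b, c} : Finset (Fin 5)) → x ≠ y →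
      (SimpleGraph.fromEdgeSet (Subtype.val '' (triEdges {a, b, c} : Set KE))).Adj x y := by
    intro x y hx hy hxy
    rw [SimpleGraph.fromEdgeSet_adj]
    refine ⟨⟨⟨s(x, y), by simpa using hxy⟩, ?_, rfl⟩, hxy⟩
    simp only [triEdges, Finset.coe_filter, Finset.mem_univ, true_and, Set.mem_ofPred_eq]
    intro z hz
    rcases Sym2.mem_iff.1 hz with rfl | rfl
    · exact hx
    · exact hy
  exact triangle_not_acyclic a b c hab hbc hac _ (key a b (by simp) (by simp) hab)
    (key b c (by simp) (by simp) hbc) (key c a (by simp) (by simp) hac.symm)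

theorem not_dual_K5 : ¬ IsDualOfCycleMatroidK5 M0 := by
  classical
  rintro ⟨f, hf⟩
  have hM : M0✶ = N0 := Matroid.dual_dual N0
  rw [hM] at hf
  let g : KE → Fin 10 := fun e => (f e).1
  have hg : Function.Injective g := fun a b h => f.injective (Subtype.ext h)
  have hmap : ∀ t ∈ Finset.powersetCard 3 (Finset.univ : Finset (Fin 5)),
      (triEdges t).image g ∈ lines := by
    intro t ht
    have hcard : ((triEdges t).image g).card = 3 := by
      rw [Finset.card_image_of_injective _ hg]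
      exact triEdges_card t ht
    have hnot := tri_not_acyclic t (Finset.mem_powersetCard.1 ht).2
    rw [← hf] at hnot
    obtain ⟨B, hB, hBA, hsum⟩ := dep_sum hnot
    have hBA' : B ⊆ (triEdges t).image g := by
      intro i hi
      obtain ⟨x, ⟨e, he, rfl⟩, rfl⟩ := hBA hi
      exact Finset.mem_image_of_mem _ he
    rw [lines, Finset.mem_filter, Finset.mem_powersetCard]
    exact ⟨⟨Finset.subset_univ _, hcard⟩, sum_three _ B hcard hBA' hB hsum⟩
  have hlt : lines.card < (Finset.powersetCard 3 (Finset.univ : Finset (Fin 5))).card := by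
    rw [card_lines]; decide
  obtain ⟨t, ht, t', ht', hne, heq⟩ := Finset.exists_ne_map_eq_of_card_lt_of_maps_to hlt hmap
  exact hne (triEdges_inj t ht t' ht' (Finset.image_injective hg heq))

theorem card_KE : Nat.card KE = 10 := by
  rw [Nat.card_eq_fintype_card]
  decide

/-- `M` has no minor isomorphic to the dual of the cycle matroid of `K_5`. -/
theorem no_minor (N : Matroid (Fin 10)) (hN : N ≤m M0) : ¬ IsDualOfCycleMatroidK5 N := by
  rintro ⟨f, hf⟩
  have h1 : Nat.card N.E = 10 := by rw [← Nat.card_congr f, card_KE]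
  have h2 : N.E = M0.E := by
    apply Set.eq_of_subset_of_ncard_le hN.subset
    rw [M0_E, Set.ncard_univ, Nat.card_fin, ← Nat.card_coe_set_eq, h1]
  have h3 : N = M0 := (hN.eq_of_ground_subset h2.ge).symm
  subst h3
  exact not_dual_K5 ⟨f, hf⟩

theorem step_minor {M N : Matroid (Fin 10)} (h : RestrictedStep M N) : N ≤m M := by
  cases h with
  | delete e he => exact by simpa using Matroid.contract_delete_isMinor M ∅ {e}
  | seriesContract e f hef h => exact by simpa using Matroid.contract_delete_isMinor M {e} ∅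
  | coloopContract e h => exact by simpa using Matroid.contract_delete_isMinor M {e} ∅

theorem no_restricted_minor : ¬ HasRestrictedMinor M0 := by
  rintro ⟨N, hN, h5⟩
  have : N ≤m M0 := by
    clear h5
    induction hN with
    | refl => exact Matroid.IsMinor.refl
    | tail _ hstep ih => exact (step_minor hstep).trans ih
  exact no_minor N this h5

end matroid

section fiber

/-- The exponent vectors of the images of the variables. -/
noncomputable def expA (D : {D : Set (Fin 10) // IsCycle M0 D}) : Option (Fin 10) →₀ ℕ :=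
  open Classical in
  Finsupp.single none 1 + ∑ e ∈ Finset.univ.filter (fun e => e ∈ D.1), Finsupp.single (some e) 1

theorem cycleHom_X (K : Type*) [Field K] (D : {D : Set (Fin 10) // IsCycle M0 D}) :
    cycleHom K M0 (X D) = monomial (expA D) 1 := by
  classical
  rw [cycleHom, aeval_X, expA]
  have : ∏ e ∈ Finset.univ.filter (fun e => e ∈ D.1), (X (some e) : MvPolynomial (Option (Fin 10)) K)
      = monomial (∑ e ∈ Finset.univ.filter (fun e => e ∈ D.1), Finsupp.single (some e) 1) 1 := by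
    rw [MvPolynomial.monomial_sum_one]
    rfl
  rw [this]
  change monomial _ 1 * monomial _ 1 = _
  rw [monomial_mul, one_mul]

theorem expA_none (D : {D : Set (Fin 10) // IsCycle M0 D}) : expA D none = 1 := by
  classical
  simp [expA]

theorem expA_some_mem (D : {D : Set (Fin 10) // IsCycle M0 D}) (e : Fin 10) (h : e ∈ D.1) :
    expA D (some e) = 1 := by
  classical
  simp only [expA, Finsupp.add_apply, Finsupp.finsetSum_apply, Finsupp.single_apply,
    reduceCtorEq, if_false, zero_add, Option.some.injEq, Finset.sum_ite_eq']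
  rw [if_pos]
  exact Finset.mem_filter.2 ⟨Finset.mem_univ _, h⟩

theorem expA_some_notMem (D : {D : Set (Fin 10) // IsCycle M0 D}) (e : Fin 10) (h : e ∉ D.1) :
    expA D (some e) = 0 := by
  classical
  simp only [expA, Finsupp.add_apply, Finsupp.finsetSum_apply, Finsupp.single_apply,
    reduceCtorEq, if_false, zero_add, Option.some.injEq, Finset.sum_ite_eq']
  rw [if_neg]
  exact fun h' => h (Finset.mem_filter.1 h').2

theorem expA_some (c : Fin 16) (e : Fin 10) :
    expA (cycEquiv c) (some e) = if tab c e = true then 1 else 0 := by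
  by_cases ht : tab c e = true
  · rw [if_pos ht]
    exact expA_some_mem _ _ ht
  · rw [if_neg ht]
    exact expA_some_notMem _ _ ht

theorem expo_apply (m : {D : Set (Fin 10) // IsCycle M0 D} →₀ ℕ) (t : Option (Fin 10)) :
    expo expA m t = ∑ c : Fin 16, m (cycEquiv c) * expA (cycEquiv c) t := by
  classical
  have : Fintype {D : Set (Fin 10) // IsCycle M0 D} := Fintype.ofEquiv _ cycEquiv
  rw [expo, Finsupp.sum_fintype _ _ (by simp), Finsupp.finsetSum_apply]
  rw [← Equiv.sum_comp cycEquiv]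
  rfl

theorem expand (g w : Fin 16 → ℕ) : ∑ c, g c * w c = g 0 * w 0 + g 1 * w 1 + g 2 * w 2 + g 3 * w 3 +
    g 4 * w 4 + g 5 * w 5 + g 6 * w 6 + g 7 * w 7 + g 8 * w 8 + g 9 * w 9 + g 10 * w 10 +
    g 11 * w 11 + g 12 * w 12 + g 13 * w 13 + g 14 * w 14 + g 15 * w 15 := by
  simp only [Fin.sum_univ_succ, Finset.univ_eq_empty, Finset.sum_empty]
  simp only [add_zero, add_assoc]
  rfl

/-- The exponents of the first monomial. -/
def a1 : Fin 16 → ℕ := ![2, 0, 0, 0, 0, 0, 0, 1, 0, 1, 1, 0, 1, 0, 0, 0]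

/-- The exponents of the second monomial. -/
def a2 : Fin 16 → ℕ := ![0, 1, 1, 0, 1, 0, 0, 0, 2, 0, 0, 0, 0, 0, 0, 1]

noncomputable def mono (a : Fin 16 → ℕ) : {D : Set (Fin 10) // IsCycle M0 D} →₀ ℕ :=
  have : Finite {D : Set (Fin 10) // IsCycle M0 D} := Finite.of_equiv _ cycEquiv
  Finsupp.equivFunOnFinite.symm (fun D => a (cycEquiv.symm D))

theorem mono_apply (a : Fin 16 → ℕ) (c : Fin 16) : mono a (cycEquiv c) = a c := by
  simp [mono]

theorem expo_mono_none (a : Fin 16 → ℕ) : expo expA (mono a) none = ∑ c, a c := by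
  rw [expo_apply]
  simp [mono_apply, expA_none]

theorem expo_mono_some (a : Fin 16 → ℕ) (e : Fin 10) :
    expo expA (mono a) (some e) = ∑ c, a c * (if tab c e = true then 1 else 0) := by
  rw [expo_apply]
  simp only [mono_apply, expA_some]

theorem expo_eq : expo expA (mono a1) = expo expA (mono a2) := by
  ext t
  rcases t with _ | e
  · rw [expo_mono_none, expo_mono_none]; decide
  · rw [expo_mono_some, expo_mono_some]
    revert e
    decide

theorem fib (m : {D : Set (Fin 10) // IsCycle M0 D} →₀ ℕ) (h : expo expA m = expo expA (mono a1)) :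
    m = mono a1 ∨ m = mono a2 := by
  have h0 : ∑ c : Fin 16, m (cycEquiv c) * 1 = 6 := by
    have := DFunLike.congr_fun h none
    rw [expo_mono_none, expo_apply] at this
    simp only [expA_none] at this
    rw [this]
    decide
  have hs : ∀ e : Fin 10, ∑ c : Fin 16, m (cycEquiv c) * (if tab c e = true then 1 else 0) =
      (![2, 2, 2, 2, 2, 4, 3, 3, 3, 3] : Fin 10 → ℕ) e := by
    intro e
    have := DFunLike.congr_fun h (some e)
    rw [expo_mono_some, expo_apply] at this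
    simp only [expA_some] at this
    rw [this]
    clear this
    revert e
    decide
  rw [expand (fun c => m (cycEquiv c)) (fun _ => 1)] at h0
  have k0 : m (cycEquiv 0) * 0 + m (cycEquiv 1) * 1 + m (cycEquiv 2) * 0 + m (cycEquiv 3) * 1 + m (cycEquiv 4) * 0 + m (cycEquiv 5) * 1 + m (cycEquiv 6) * 0 + m (cycEquiv 7) * 1 + m (cycEquiv 8) * 0 + m (cycEquiv 9) * 1 + m (cycEquiv 10) * 0 + m (cycEquiv 11) * 1 + m (cycEquiv 12) * 0 + m (cycEquiv 13) * 1 + m (cycEquiv 14) * 0 + m (cycEquiv 15) * 1 = 2 :=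
    (expand (fun c => m (cycEquiv c)) (fun c => if tab c 0 = true then 1 else 0)).symm.trans (hs 0)
  have k1 : m (cycEquiv 0) * 0 + m (cycEquiv 1) * 0 + m (cycEquiv 2) * 1 + m (cycEquiv 3) * 1 + m (cycEquiv 4) * 0 + m (cycEquiv 5) * 0 + m (cycEquiv 6) * 1 + m (cycEquiv 7) * 1 + m (cycEquiv 8) * 0 + m (cycEquiv 9) * 0 + m (cycEquiv 10) * 1 + m (cycEquiv 11) * 1 + m (cycEquiv 12) * 0 + m (cycEquiv 13) * 0 + m (cycEquiv 14) * 1 + m (cycEquiv 15) * 1 = 2 :=
    (expand (fun c => m (cycEquiv c)) (fun c => if tab c 1 = true then 1 else 0)).symm.trans (hs 1)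
  have k2 : m (cycEquiv 0) * 0 + m (cycEquiv 1) * 1 + m (cycEquiv 2) * 1 + m (cycEquiv 3) * 0 + m (cycEquiv 4) * 0 + m (cycEquiv 5) * 1 + m (cycEquiv 6) * 1 + m (cycEquiv 7) * 0 + m (cycEquiv 8) * 0 + m (cycEquiv 9) * 1 + m (cycEquiv 10) * 1 + m (cycEquiv 11) * 0 + m (cycEquiv 12) * 0 + m (cycEquiv 13) * 1 + m (cycEquiv 14) * 1 + m (cycEquiv 15) * 0 = 2 :=
    (expand (fun c => m (cycEquiv c)) (fun c => if tab c 2 = true then 1 else 0)).symm.trans (hs 2)
  have k3 : m (cycEquiv 0) * 0 + m (cycEquiv 1) * 0 + m (cycEquiv 2) * 0 + m (cycEquiv 3) * 0 + m (cycEquiv 4) * 1 + m (cycEquiv 5) * 1 + m (cycEquiv 6) * 1 + m (cycEquiv 7) * 1 + m (cycEquiv 8) * 0 + m (cycEquiv 9) * 0 + m (cycEquiv 10) * 0 + m (cycEquiv 11) * 0 + m (cycEquiv 12) * 1 + m (cycEquiv 13) * 1 + m (cycEquiv 14) * 1 + m (cycEquiv 15) * 1 = 2 :=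
    (expand (fun c => m (cycEquiv c)) (fun c => if tab c 3 = true then 1 else 0)).symm.trans (hs 3)
  have k4 : m (cycEquiv 0) * 0 + m (cycEquiv 1) * 1 + m (cycEquiv 2) * 0 + m (cycEquiv 3) * 1 + m (cycEquiv 4) * 1 + m (cycEquiv 5) * 0 + m (cycEquiv 6) * 1 + m (cycEquiv 7) * 0 + m (cycEquiv 8) * 0 + m (cycEquiv 9) * 1 + m (cycEquiv 10) * 0 + m (cycEquiv 11) * 1 + m (cycEquiv 12) * 1 + m (cycEquiv 13) * 0 + m (cycEquiv 14) * 1 + m (cycEquiv 15) * 0 = 2 :=
    (expand (fun c => m (cycEquiv c)) (fun c => if tab c 4 = true then 1 else 0)).symm.trans (hs 4)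
  have k5 : m (cycEquiv 0) * 0 + m (cycEquiv 1) * 1 + m (cycEquiv 2) * 1 + m (cycEquiv 3) * 0 + m (cycEquiv 4) * 1 + m (cycEquiv 5) * 0 + m (cycEquiv 6) * 0 + m (cycEquiv 7) * 1 + m (cycEquiv 8) * 0 + m (cycEquiv 9) * 1 + m (cycEquiv 10) * 1 + m (cycEquiv 11) * 0 + m (cycEquiv 12) * 1 + m (cycEquiv 13) * 0 + m (cycEquiv 14) * 0 + m (cycEquiv 15) * 1 = 4 :=
    (expand (fun c => m (cycEquiv c)) (fun c => if tab c 5 = true then 1 else 0)).symm.trans (hs 5)
  have k6 : m (cycEquiv 0) * 0 + m (cycEquiv 1) * 0 + m (cycEquiv 2) * 0 + m (cycEquiv 3) * 0 + m (cycEquiv 4) * 0 + m (cycEquiv 5) * 0 + m (cycEquiv 6) * 0 + m (cycEquiv 7) * 0 + m (cycEquiv 8) * 1 + m (cycEquiv 9) * 1 + m (cycEquiv 10) * 1 + m (cycEquiv 11) * 1 + m (cycEquiv 12) * 1 + m (cycEquiv 13) * 1 + m (cycEquiv 14) * 1 + m (cycEquiv 15) * 1 = 3 :=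
    (expand (fun c => m (cycEquiv c)) (fun c => if tab c 6 = true then 1 else 0)).symm.trans (hs 6)
  have k7 : m (cycEquiv 0) * 0 + m (cycEquiv 1) * 1 + m (cycEquiv 2) * 0 + m (cycEquiv 3) * 1 + m (cycEquiv 4) * 0 + m (cycEquiv 5) * 1 + m (cycEquiv 6) * 0 + m (cycEquiv 7) * 1 + m (cycEquiv 8) * 1 + m (cycEquiv 9) * 0 + m (cycEquiv 10) * 1 + m (cycEquiv 11) * 0 + m (cycEquiv 12) * 1 + m (cycEquiv 13) * 0 + m (cycEquiv 14) * 1 + m (cycEquiv 15) * 0 = 3 :=
    (expand (fun c => m (cycEquiv c)) (fun c => if tab c 7 = true then 1 else 0)).symm.trans (hs 7)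
  have k8 : m (cycEquiv 0) * 0 + m (cycEquiv 1) * 0 + m (cycEquiv 2) * 1 + m (cycEquiv 3) * 1 + m (cycEquiv 4) * 0 + m (cycEquiv 5) * 0 + m (cycEquiv 6) * 1 + m (cycEquiv 7) * 1 + m (cycEquiv 8) * 1 + m (cycEquiv 9) * 1 + m (cycEquiv 10) * 0 + m (cycEquiv 11) * 0 + m (cycEquiv 12) * 1 + m (cycEquiv 13) * 1 + m (cycEquiv 14) * 0 + m (cycEquiv 15) * 0 = 3 :=
    (expand (fun c => m (cycEquiv c)) (fun c => if tab c 8 = true then 1 else 0)).symm.trans (hs 8)
  have k9 : m (cycEquiv 0) * 0 + m (cycEquiv 1) * 0 + m (cycEquiv 2) * 0 + m (cycEquiv 3) * 0 + m (cycEquiv 4) * 1 + m (cycEquiv 5) * 1 + m (cycEquiv 6) * 1 + m (cycEquiv 7) * 1 + m (cycEquiv 8) * 1 + m (cycEquiv 9) * 1 + m (cycEquiv 10) * 1 + m (cycEquiv 11) * 1 + m (cycEquiv 12) * 0 + m (cycEquiv 13) * 0 + m (cycEquiv 14) * 0 + m (cycEquiv 15) * 0 = 3 :=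
    (expand (fun c => m (cycEquiv c)) (fun c => if tab c 9 = true then 1 else 0)).symm.trans (hs 9)
  have hf := fiber (m (cycEquiv 0)) (m (cycEquiv 1)) (m (cycEquiv 2)) (m (cycEquiv 3))
    (m (cycEquiv 4)) (m (cycEquiv 5)) (m (cycEquiv 6)) (m (cycEquiv 7)) (m (cycEquiv 8))
    (m (cycEquiv 9)) (m (cycEquiv 10)) (m (cycEquiv 11)) (m (cycEquiv 12)) (m (cycEquiv 13))
    (m (cycEquiv 14)) (m (cycEquiv 15))
    (by simpa using h0) (by simpa using k0) (by simpa using k1) (by simpa using k2)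
    (by simpa using k3) (by simpa using k4) (by simpa using k5) (by simpa using k6)
    (by simpa using k7) (by simpa using k8) (by simpa using k9)
  rcases hf with hf | hf
  · left
    ext D
    obtain ⟨c, rfl⟩ := cycEquiv.surjective D
    rw [mono_apply]
    obtain ⟨f0, f1, f2, f3, f4, f5, f6, f7, f8, f9, f10, f11, f12, f13, f14, f15⟩ := hf
    fin_cases c <;> assumption
  · right
    ext D
    obtain ⟨c, rfl⟩ := cycEquiv.surjective D
    rw [mono_apply]
    obtain ⟨f0, f1, f2, f3, f4, f5, f6, f7, f8, f9, f10, f11, f12, f13, f14, f15⟩ := hf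
    fin_cases c <;> assumption

theorem not_generated (K : Type*) [Field K] : ¬ GeneratedInDegree (cycleIdeal K M0) 5 := by
  refine toric_not_generated expA (cycleHom K M0) (cycleHom_X K) (mono a1) (mono a2) 5 ?_
    expo_eq fib ?_ ?_
  · have h : (mono a1).degree = 6 := by
      have : Fintype {D : Set (Fin 10) // IsCycle M0 D} := Fintype.ofEquiv _ cycEquiv
      rw [Finsupp.degree_eq_sum, ← Equiv.sum_comp cycEquiv]
      simp only [mono_apply]
      decide
    rw [h]; norm_num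
  · intro h
    have := DFunLike.congr_fun h (cycEquiv 0)
    rw [mono_apply, mono_apply] at this
    revert this
    decide
  · intro D
    obtain ⟨c, rfl⟩ := cycEquiv.surjective D
    rw [mono_apply, mono_apply]
    revert c
    decide

end fiber

/-- There is a connected binary matroid with ten elements, simple and cosimple, without any minor
isomorphic to `M(K_5)^*` and so without an `M(K_5)^*`-restricted minor, whose cycle ideal is, over
every field, not generated in degree at most five. -/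
theorem result : ∃ M : Matroid (Fin 10), M.E = Set.univ ∧
    IsBinary M ∧ IsConnected M ∧ IsSimple M ∧ IsSimple M✶ ∧
    (∀ N : Matroid (Fin 10), N ≤m M → ¬ IsDualOfCycleMatroidK5 N) ∧
    ¬ HasRestrictedMinor M ∧
    ∀ (K : Type*) [Field K], ¬ GeneratedInDegree (cycleIdeal K M) 5 :=
  ⟨M0, M0_E, binary, connected, simple, cosimple, no_minor, no_restricted_minor,
    fun K _ => not_generated K⟩

end Pool.Agent.Results.MP_1f7bca_co.TenElements
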